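import Pool.Agent.U173.PS.SysDefs
import Pool.Agent.U173.SL.GeoDefs

/-!
# Families of varieties over finite fields with separated slope fields: definitions
-/

set_option autoImplicit false

open Polynomial CategoryTheory AlgebraicGeometry

namespace Pool.Agent.U173.SF

open Pool.Agent.H914 Pool.Agent.H914.VarClass Pool.Agent.H914.VarClass.Obj Pool.Agent.W492.BB
  Pool.Agent.W484.CK Pool.Agent.U231.FR.Base Pool.Agent.U173.SL Pool.Agent.U173.PS

/-- The fields `E i` are totally real subfields of the fields `L i`; for `i < j` the field `L i` is normal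
over `E i`, and it meets the compositum of `E i` and `L j` in a totally real field; and `L i` meets the
compositum of `E i` and `M` in a totally real field. -/
structure AreSeparated {I : Type} [LinearOrder I]
    (E L : I → IntermediateField ℚ (AlgebraicClosure ℚ))
    (M : IntermediateField ℚ (AlgebraicClosure ℚ)) : Prop where
  real : ∀ i, ∀ z ∈ E i, IsTotallyReal z
  le : ∀ i, E i ≤ L i
  pairs : ∀ i j, i < j → IsNormalOver (E i) (L i) ∧ MeetInReal (L i) (E i ⊔ L j)
  base : ∀ i, MeetInReal (L i) (E i ⊔ M)

variable {κ : Type} [Field κ] {𝒱 : VarClass κ} {A : TheoryData.{0, 0, 0} 𝒱 ℚ} {K : Type} [Field K]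

/-- `F` is the Frobenius endomorphism of the varieties over the field with `p ^ m` elements; the
varieties `X i` satisfy the Tate conjecture in the form `IsGoodAlgebra`, with slope fields `L i`; `M` is
a slope field of `Z`; and the fields are separated. -/
structure IsSeparatedFamily [CharZero K] {I : Type} [LinearOrder I] (p m : ℕ) [Fact p.Prime]
    (ι : AlgebraicClosure ℚ →+* PadicAlgCl p)
    (E : I → IntermediateField ℚ (AlgebraicClosure ℚ))
    (M : IntermediateField ℚ (AlgebraicClosure ℚ))
    (L : I → IntermediateField ℚ (AlgebraicClosure ℚ)) (H : WeilTheoryData.{0, 0, 0} A K)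
    (F : ∀ X : 𝒱.Obj, X ⟶ X) (X : I → 𝒱.Obj) (Z : 𝒱.Obj) : Prop where
  separated : AreSeparated E L M
  pos : 0 < m
  standard : IsStandard H
  frobenius : ∀ X, IsFrobenius A (F X) (p ^ m)
  product : ∀ X Y, F (X.prod Y) = prodMap (F X) (F Y)
  good : ∀ i, IsGoodAlgebra p m ι (L i) (cycleSpan H (X i)) (H.pull (F (X i)))
  polarized : ∀ i, IsPolarized H (X i)
  base : HasSlopeField p ι M H (F Z)

end Pool.Agent.U173.SF
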