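import Pool.Agent.U173.OP.Star
import Pool.Agent.N876.CG.RelT
import Pool.Agent.N876.CG.Tower
import Pool.Agent.W484.CK.Main
import Pool.Agent.U173.PS.Sys
import Pool.Agent.U173.SF.Defs

/-!
# Families of varieties with separated slope fields satisfy the hypotheses of the library `N876.CG`
-/

set_option autoImplicit false
set_option linter.unusedSectionVars false

open Finset Polynomial CategoryTheory AlgebraicGeometry

namespace Pool.Agent.U173.PS

open Pool.Agent.U173.SL Pool.Agent.TH121.KT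

section num

variable {p : ℕ} [Fact p.Prime] {ι : Qb →+* PadicAlgCl p}

/-- **No resonances, one number with slope field `L` and several others.** -/
theorem no_relation_star_pow {Ω : Type*} [Field Ω] [CharZero Ω] [IsAlgClosed Ω]
    {K L M : IntermediateField ℚ Qb} (hK : ∀ z ∈ K, IsTotallyReal z) (hKL : K ≤ L) (hKM : K ≤ M)
    (hM : MeetInReal L M) {m : ℕ} {α : Ω} (hα : IsGoodNumber p m ι L α)
    {Y : List Ω} (hn : Y ≠ [] → IsNormalOver K L)
    (hY : ∀ y ∈ Y, ∃ N : IntermediateField ℚ Qb, K ≤ N ∧ MeetInReal L N ∧ HasSlopesIn p ι N y ∧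
      ∃ w, IsWeilNumber (p ^ m) w y) {β : Ω} (hβ : HasSlopesIn p ι M β) {N₀ : ℕ} (hN₀ : 0 < N₀)
    (B : ℕ) (C : ℤ) : (α * Y.prod) ^ N₀ * β ^ B ≠ (p : Ω) ^ C := by
  classical
  intro hrel
  let τ : Qb →+* Ω := (IsAlgClosed.lift : Qb →ₐ[ℚ] Ω).toRingHom
  obtain ⟨b, hτb, hb⟩ := exists_preimage τ hβ
  obtain ⟨a, hτa, ha⟩ := exists_preimage τ hα.slopes
  obtain ⟨w₀, hw₀⟩ := hα.weil
  have hY' : ∀ j : Fin Y.length, ∃ (N : IntermediateField ℚ Qb) (y : Qb) (w : ℕ), K ≤ N ∧
      MeetInReal L N ∧ τ y = Y[j] ∧ Det ι N y ∧ IsWeilNumber (p ^ m) w y := by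
    intro j
    obtain ⟨N, h1, h2, h3, w, h4⟩ := hY _ (List.getElem_mem j.2)
    obtain ⟨y, hy, hdy⟩ := exists_preimage τ h3
    exact ⟨N, y, w, h1, h2, hy, hdy, weil_lift τ hy h4⟩
  choose N y w h1 h2 h3 h4 h5 using hY'
  let Lo : Option (Fin Y.length) → IntermediateField ℚ Qb := fun o => o.elim L N
  let xo : Option (Fin Y.length) → Qb := fun o => o.elim a y
  let wo : Option (Fin Y.length) → ℕ := fun o => o.elim w₀ w
  have hprodY : τ (∏ j, y j) = Y.prod := by
    rw [map_prod, Finset.prod_congr rfl (fun j _ => h3 j), ← Fin.prod_univ_getElem]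
    rfl
  have hprod : ∏ i, xo i = a * ∏ j, y j := Fintype.prod_option xo
  have hrel' : (∏ i, xo i) ^ N₀ * b ^ B = (p : Qb) ^ C := by
    apply τ.injective
    rw [hprod, map_mul, map_pow, map_mul, map_pow, hτa, hτb, hprodY, hrel, map_zpow₀, map_natCast]
  obtain ⟨N', hN', h⟩ := core_star (ι := ι) hK (L := Lo) (s := Finset.univ) (i₀ := none)
    (Finset.mem_univ _) (by
      rintro (_ | j) -
      · exact hKL
      · exact h1 j) (by
      rintro ⟨(_ | j), -, hj⟩
      · exact absurd rfl hj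
      · refine hn ?_
        intro h0
        have h6 : Y.length = 0 := by rw [h0]; rfl
        have h7 := j.2
        omega) (by
      rintro (_ | j) - hj
      · exact absurd rfl hj
      · exact h2 j) hKM hM (x := xo) (by
      rintro (_ | j) -
      · exact ha
      · exact h4 j) (m := fun _ => m) (w := wo) (by
      rintro (_ | j) -
      · exact weil_lift τ hτa hw₀
      · exact h5 j) (det_mul_pow hb hN₀ hrel')
  refine hα.not_supersingular (2 * N') ((m * w₀ * N' : ℕ) : ℤ) (by positivity) ?_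
  change a ^ (2 * N') = (p : Qb) ^ (m * w₀ * N') at h
  rw [← hτa, ← map_pow, h, map_pow, map_natCast, zpow_natCast]

theorem HasSlopesIn.mono {Ω : Type*} [Field Ω] [CharZero Ω] {L L' : IntermediateField ℚ Qb} {a : Ω}
    (ha : HasSlopesIn p ι L a) (h : L ≤ L') : HasSlopesIn p ι L' a :=
  ⟨ha.1, fun g hg x hx => ha.2 g (fun z hz => hg z (h hz)) x hx⟩

end num

end Pool.Agent.U173.PS

namespace Pool.Agent.U173.SF

open Pool.Agent.H914 Pool.Agent.H914.VarClass Pool.Agent.H914.VarClass.Obj Pool.Agent.W492.BB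
  Pool.Agent.W484.CK Pool.Agent.U231.FR.Base Pool.Agent.U173.SL Pool.Agent.TH121.KT
  Pool.Agent.U173.PS

section num

variable {p : ℕ} [Fact p.Prime] {ι : Qb →+* PadicAlgCl p}

/-- **No resonances.** -/
theorem nores {Ω : Type} [Field Ω] [CharZero Ω] [IsAlgClosed Ω] {I : Type} [LinearOrder I]
    {E L : I → IntermediateField ℚ Qb} {M : IntermediateField ℚ Qb} {m : ℕ}
    (hL : AreSeparated E L M) {S : I → Set Ω}
    (hS : ∀ i, ∀ α ∈ S i, IsGoodNumber p m ι (L i) α) {SZ : Set Ω}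
    (hSZ : ∀ β ∈ SZ, HasSlopesIn p ι M β) :
    Pool.Agent.N876.FL.NoResF ((p ^ m : ℕ) : Ω) S SZ := by
  classical
  intro s hs α hα β hβ e N w hN heq
  have hp0 : (p : Ω) ≠ 0 := by exact_mod_cast (Fact.out : p.Prime).ne_zero
  have hi := s.min'_mem hs
  set i := s.min' hs with hidef
  have hlt : ∀ j ∈ s.erase i, i < j := by
    intro j hj
    rw [Finset.mem_erase] at hj
    exact lt_of_le_of_ne (s.min'_le j hj.2) hj.1.symm
  refine no_relation_star_pow (ι := ι) (hL.real i) (hL.le i) (le_sup_left : E i ≤ E i ⊔ M)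
    (hL.base i) (m := m) (hS i _ (hα i hi)) (Y := (s.erase i).toList.map α) ?_ ?_
    ((hSZ β hβ).mono le_sup_right) hN (B := N) (C := (m * N * w : ℕ) - (m * e * N : ℕ)) ?_
  · intro hne
    obtain ⟨j, hj⟩ := List.exists_mem_of_ne_nil (s.erase i).toList
      (fun h0 => hne (by rw [h0]; rfl))
    exact (hL.pairs i j (hlt j (Finset.mem_toList.1 hj))).1
  · intro y hy
    obtain ⟨j, hj, rfl⟩ := List.mem_map.1 hy
    have hj' := Finset.mem_toList.1 hj
    have hgood := hS j _ (hα j (Finset.mem_of_mem_erase hj'))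
    exact ⟨E i ⊔ L j, le_sup_left, (hL.pairs i j (hlt j hj')).2, hgood.slopes.mono le_sup_right,
      hgood.weil⟩
  · have hprod : α i * ((s.erase i).toList.map α).prod = ∏ j ∈ s, α j := by
      rw [← Finset.mul_prod_erase s α hi, Finset.prod_map_toList]
    rw [hprod, zpow_sub₀ hp0, zpow_natCast, zpow_natCast, eq_div_iff (pow_ne_zero _ hp0)]
    have h1 : ((∏ i ∈ s, α i) * ((p ^ m : ℕ) : Ω) ^ e * β) ^ N =
        (∏ i ∈ s, α i) ^ N * β ^ N * (p : Ω) ^ (m * e * N) := by
      push_cast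
      rw [mul_pow, mul_pow, ← pow_mul, ← pow_mul, mul_right_comm]
      congr 2
      ring
    rw [← h1, heq]
    push_cast
    rw [← pow_mul]
    congr 1
    ring

end num

section

variable {κ : Type} [Field κ] {𝒱 : VarClass κ} {A : TheoryData.{0, 0, 0} 𝒱 ℚ} [IsChow A]
  {K : Type} [Field K] [IsAlgClosed K] [CharZero K] {H : WeilTheoryData.{0, 0, 0} A K} [IsWeil H]
  {I : Type} [LinearOrder I] {p m : ℕ} [Fact p.Prime] {ι : Qb →+* PadicAlgCl p}
  {M : IntermediateField ℚ Qb} {E L : I → IntermediateField ℚ Qb} {F : ∀ X : 𝒱.Obj, X ⟶ X}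
  {X : I → 𝒱.Obj} {Z : 𝒱.Obj}

/-- **Families with separated slope fields**, relative version. -/
theorem cr_of (h : IsSeparatedFamily p m ι E M L H F X Z) {B : Set K}
    (hB : ∀ ρ ∈ B, HasSlopesIn p ι M ρ) :
    ∃ S : I → Set K, Pool.Agent.N876.CG.Cr H F (p ^ m) X Z S B := by
  obtain ⟨hsep, hpos, hstd, hfrob, hprod, hgood, hpol, hbase⟩ := h
  choose T₀ hT₀ hTtop hTS using hgood
  refine ⟨fun i => {α | Module.End.HasEigenvalue
      ((Pool.Agent.W484.CH.frob H (F (X i))).restrict (hT₀ i)) α}, ?_⟩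
  exact
    { std := isStandard_bridge hstd
      one_lt := one_lt_q hpos
      frob := fun X => isFrobenius_bridge (hfrob X)
      prod := hprod
      cg := fun i => ⟨T₀ i, hT₀ i, hTtop i, fun α hα => hα⟩
      int := fun i α hα => (hTS i α hα).slopes.1
      ne := fun i α hα => good_ne_zero (hTS i α hα)
      intZ := fun β hβ => (hbase β hβ).1
      res := nores hsep (fun i α hα => hTS i α hα) (by
        rintro γ ⟨β, ρ, hβ, hρ, rfl⟩
        exact (hbase β hβ).mul (hB ρ hρ))
      res1 := nores hsep (fun i α hα => hTS i α hα) fun β hβ => by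
        rw [Set.mem_singleton_iff.1 hβ]
        exact hasSlopesIn_one M }

end

end Pool.Agent.U173.SF
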