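import Pool.Agent.U231.FR.Kt
import Pool.Agent.U173.SF.Sys

/-!
# K-groups of products of varieties with separated slope fields

The proof follows `U231/FR/Kt` (helper231).
-/

set_option autoImplicit false

open Finset Polynomial CategoryTheory AlgebraicGeometry

namespace Pool.Agent.U173.SF.Kt

open Pool.Agent.H914 Pool.Agent.H914.VarClass Pool.Agent.H914.VarClass.Obj Pool.Agent.W492.BB
  Pool.Agent.W484.CK Pool.Agent.U231.FR.Base Pool.Agent.U173.SL Pool.Agent.TH121.KT
  Pool.Agent.U173.PS Pool.Agent.U173.SF Pool.Agent.U231.FR Pool.Agent.U231.FR.Kt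

theorem main {κ : Type} [Field κ] {𝒱 : VarClass κ} {A : TheoryData.{0, 0, 0} 𝒱 ℚ} [IsChow A]
    {K : Type} [Field K] [IsAlgClosed K] [CharZero K] {H : WeilTheoryData.{0, 0, 0} A K} [IsWeil H]
    {I : Type} [LinearOrder I] {p m : ℕ} [Fact p.Prime] {ι : Qb →+* PadicAlgCl p}
    {M : IntermediateField ℚ Qb} {E L : I → IntermediateField ℚ Qb} {F : ∀ X : 𝒱.Obj, X ⟶ X}
    {X : I → 𝒱.Obj} {Z : 𝒱.Obj}
    (h : IsSeparatedFamily p m ι E M L H F X Z) {χ : ℚ[X]} (hχ0 : χ.coeff 0 ≠ 0)
    (hχ : ∀ ρ : K, aeval ρ χ = 0 → HasSlopesIn p ι M ρ)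
    (hnil : ∀ Li : List I, Nilpotence H (productOf X Z Li))
    (T : MotivicData A) (φ : ∀ X, T.M X →ₗ[ℚ] T.M X)
    (hT : IsCycleTheory T φ F (p ^ m)) (hT0 : IsRoot T φ χ)
    (G : 𝒱.Obj → Type) [∀ X, AddCommGroup (G X)] (hG : IsKTheory G T)
    (Li : List I) (hLi : Li.Nodup) : Conclusions H X Z G Li := by
  obtain ⟨S, hsys⟩ := cr_of h (B := {ρ | aeval ρ χ = 0}) hχ
  have hpol := h.polarized
  have hrel : Pool.Agent.N876.CG.RelTheory (toCorr T) φ F (p ^ m) χ :=
    { corr := toCorr_isCorrTheory hT.motivic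
      comm := hT.comm
      power := fun X n t ht => ⟨1, by
        rw [pow_one]
        exact hT.power ht⟩
      poly := fun X n t ht => hT0 ht }
  have hnil' : ∀ Li, Pool.Agent.N876.CG.NilT H (toCorr T) (Pool.Agent.N876.CG.tw X Z Li) :=
    fun Li => Pool.Agent.N876.CG.nilT_of (toCorr_isCorrTheory hT.motivic) (by
      rw [← Pa.tw_eq]
      exact nilpotence_bridge (hnil Li))
  have hstep : ∀ (i : I) (Li : List I), i ∉ Li → Li.Nodup → 0 < cycleNumber H (X i) ∧
      Nonempty ((∀ n : ℤ, T.gr ((X i).prod (productOf X Z Li)) n) ≃+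
        (Fin (cycleNumber H (X i)) → ∀ n : ℤ, T.gr (productOf X Z Li) n)) := by
    intro i Li hi hLi
    obtain ⟨J, hJ, deg, D, E₁, h1, h2, h3⟩ := hsys.step hi hLi
    have hcard : cycleNumber H (X i) = Fintype.card J := by
      rw [← finrank_span_eq_card (Pool.Agent.N876.CG.linearIndependent_of_dual hsys.std h1)]
      unfold cycleNumber
      have h5 : cycleSpan H (X i) = Submodule.span K (Set.range fun j => H.cl (D j)) := ?_
      · rw [h5]
      apply le_antisymm
      · unfold cycleSpan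
        refine Submodule.span_le.2 ?_
        rintro c ⟨n, z, hz, rfl⟩
        have h4 : H.cl z ∈ Pool.Agent.N876.CG.AK H (X i) n := Submodule.subset_span ⟨z, hz, rfl⟩
        refine (Submodule.span_mono ?_) (h2 n h4)
        rintro c ⟨j, -, rfl⟩
        exact ⟨j, rfl⟩
      · refine Submodule.span_le.2 ?_
        rintro c ⟨j, rfl⟩
        exact Submodule.subset_span ⟨deg j, D j, h1.left j, rfl⟩
    obtain ⟨j, -⟩ := Pool.Agent.N876.CG.exists_deg_big (hpol i) h2 (Nat.zero_le (X i).dim)
    have hpos : 0 < Fintype.card J := Fintype.card_pos_iff.2 ⟨j⟩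
    obtain ⟨e1⟩ := sum_step hT.motivic h1 (h3 _ φ χ hχ0 (fun ρ hρ => hρ) hrel (hnil' (i :: Li)))
    rw [hcard, Pa.tw_eq]
    exact ⟨hpos, ⟨e1.trans (addCongrLeft (Fintype.equivFin J))⟩⟩
  have hpos : 0 < cycleNumbers H X Li := by
    unfold cycleNumbers
    refine List.prod_pos fun a ha => ?_
    obtain ⟨i, -, rfl⟩ := List.mem_map.1 ha
    exact (hstep i [] (by simp) List.nodup_nil).1
  have hsum : ∀ Li : List I, Li.Nodup →
      Nonempty (Rational (G (productOf X Z Li)) ≃+
        (Fin (cycleNumbers H X Li) → Rational (G Z))) := by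
    intro Li hLi
    induction Li with
    | nil =>
      exact ⟨(AddEquiv.piUnique (fun _ : Fin 1 => Rational (G Z))).symm⟩
    | cons i Li ih =>
      rw [List.nodup_cons] at hLi
      obtain ⟨e0⟩ := ih hLi.2
      obtain ⟨-, ⟨e1⟩⟩ := hstep i Li hLi.1 hLi.2
      obtain ⟨a1⟩ := hG ((X i).prod (productOf X Z Li))
      obtain ⟨a2⟩ := hG (productOf X Z Li)
      let e2 : (Fin (cycleNumber H (X i)) → ∀ n : ℤ, T.gr (productOf X Z Li) n) ≃+
          (Fin (cycleNumber H (X i)) → Fin (cycleNumbers H X Li) → Rational (G Z)) :=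
        AddEquiv.piCongrRight fun _ => a2.symm.trans e0
      let e3 : (Fin (cycleNumber H (X i)) → Fin (cycleNumbers H X Li) → Rational (G Z)) ≃+
          (Fin (cycleNumber H (X i)) × Fin (cycleNumbers H X Li) → Rational (G Z)) :=
        { toFun := fun x y => x y.1 y.2
          invFun := fun x a b => x (a, b)
          left_inv := fun x => rfl
          right_inv := fun x => rfl
          map_add' := fun x y => rfl }
      let e4 : (Fin (cycleNumber H (X i)) × Fin (cycleNumbers H X Li) → Rational (G Z)) ≃+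
          (Fin (cycleNumbers H X (i :: Li)) → Rational (G Z)) :=
        addCongrLeft (finProdFinEquiv.trans
          (finCongr (by rw [cycleNumbers, cycleNumbers, List.map_cons, List.prod_cons])))
      exact ⟨(((a1.trans e1).trans e2).trans e3).trans e4⟩
  obtain ⟨e⟩ := hsum Li hLi
  refine ⟨?_, hpos, ⟨e⟩⟩
  rw [torsion_iff, torsion_iff]
  constructor
  · intro h1 x
    have h2 : e.symm (fun _ => x) = 0 := h1 _
    have h3 := congrArg e h2
    rw [AddEquiv.apply_symm_apply, map_zero] at h3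
    exact congrFun h3 ⟨0, hpos⟩
  · intro h1 x
    apply e.injective
    rw [map_zero]
    funext j
    exact h1 _

end Pool.Agent.U173.SF.Kt
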