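import Pool.Agent.U231.FR.NcAll
import Pool.Agent.U173.SF.Sys

/-!
# Noncommutative motives and varieties with separated slope fields

The proofs follow `U231/FR/Nc`, `NcMain`, `NcAll` (helper231).
-/

set_option autoImplicit false
set_option linter.unusedSectionVars false

open Finset Polynomial CategoryTheory AlgebraicGeometry

namespace Pool.Agent.U173.SF.Nc

open Pool.Agent.H914 Pool.Agent.H914.VarClass Pool.Agent.H914.VarClass.Obj Pool.Agent.W492.BB
  Pool.Agent.W484.CK Pool.Agent.U231.FR.Base Pool.Agent.U173.SL Pool.Agent.TH121.KT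
  Pool.Agent.U173.PS Pool.Agent.U173.SF Pool.Agent.U231.FR Pool.Agent.U231.FR.Nc

variable {κ : Type} [Field κ] {𝒱 : VarClass κ} {A : TheoryData.{0, 0, 0} 𝒱 ℚ} [IsChow A]
    {K : Type} [Field K] [IsAlgClosed K] [CharZero K] {H : WeilTheoryData.{0, 0, 0} A K} [IsWeil H]
    {I : Type} [LinearOrder I] {p m : ℕ} [Fact p.Prime] {ι : Qb →+* PadicAlgCl p}
    {M : IntermediateField ℚ Qb} {E L : I → IntermediateField ℚ Qb} {F : ∀ X : 𝒱.Obj, X ⟶ X}
    {X : I → 𝒱.Obj} {Z : 𝒱.Obj}

/-- the hypotheses of the library `N876.CG` -/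
theorem cr_one (h : IsSeparatedFamily p m ι E M L H F X Z) :
    ∃ S : I → Set K, Pool.Agent.N876.CG.Cr H F (p ^ m) X Z S {1} :=
  cr_of h fun ρ hρ => by
    rw [Set.mem_singleton_iff.1 hρ]
    exact hasSlopesIn_one M

/-- there are no resonances -/
theorem nores_tw {S : I → Set K} {Q : ℕ} (h : Pool.Agent.N876.CG.Cr H F Q X Z S {1}) {i : I}
    {Li : List I} (hi : i ∉ Li) (hLi : Li.Nodup) {α : K} (hα : α ∈ S i) {γ : K}
    (hγ : (Pool.Agent.W484.CH.frob H (F (Pool.Agent.N876.CG.tw X Z Li))).HasEigenvalue γ)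
    (n : ℤ) : α * γ ≠ (Q : K) ^ n := by
  classical
  have key : ∀ e' w : ℕ, α * γ * (Q : K) ^ e' ≠ (Q : K) ^ w := by
    intro e' w heq
    obtain ⟨I, α', β, e, hI, hα', hβ, rfl⟩ := h.eig_tw Li hLi γ hγ
    have hiI : i ∉ I := fun h0 => hi (hI i h0)
    refine h.res (insert i I) (Finset.insert_nonempty i I) (Function.update α' i α) ?_ (β * 1)
      ⟨β, 1, hβ, rfl, rfl⟩ (e + e') 1 w one_pos ?_
    · intro i' hi'
      rcases Finset.mem_insert.1 hi' with rfl | hi'
      · rw [Function.update_self]; exact hα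
      · rw [Function.update_of_ne (ne_of_mem_of_not_mem hi' hiI)]
        exact hα' i' hi'
    · rw [Finset.prod_insert hiI, Function.update_self,
        Finset.prod_congr rfl fun i' hi' =>
          Function.update_of_ne (ne_of_mem_of_not_mem hi' hiI) α α', pow_one, one_mul, ← heq,
          pow_add]
      ring
  have hQ : (Q : K) ≠ 0 := by
    have := h.one_lt
    have h1 : Q ≠ 0 := by omega
    exact_mod_cast h1
  intro heq
  rcases Int.le_total 0 n with hn | hn
  · obtain ⟨m, rfl⟩ := Int.eq_ofNat_of_zero_le hn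
    refine key 0 m ?_
    rw [pow_zero, mul_one, heq]
    exact zpow_natCast _ _
  · obtain ⟨m, hm⟩ := Int.eq_ofNat_of_zero_le (neg_nonneg.2 hn)
    refine key m 0 ?_
    have h3 : n = -(m : ℤ) := by omega
    rw [heq, h3, pow_zero, zpow_neg, zpow_natCast, inv_mul_cancel₀ (pow_ne_zero _ hQ)]

/-- **one step** -/
theorem step (h : IsSeparatedFamily p m ι E M L H F X Z) {i : I} {Li : List I} (hi : i ∉ Li)
    (hLi : Li.Nodup) :
    ∃ (J : Type) (_ : Fintype J) (_ : Nonempty J) (deg : J → ℕ) (D E₁ : J → A.A (X i)),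
      Pool.Agent.W484.CH.IsDual (X i) (productOf X Z Li) deg D E₁ ∧
      (∀ (n : ℤ) (w : H.A ((X i).prod (productOf X Z Li))),
        H.pull (prodMap (F (X i)) (F (productOf X Z Li))) w = ((p ^ m : ℕ) : K) ^ n • w →
        H.act (H.cl (Pool.Agent.W484.CH.proj (productOf X Z Li) D E₁)) w = w) ∧
      ∀ T : MotivicData A, IsMotivic T → (∀ V, ActsAsPower T (F V) (p ^ m)) →
        Nilpotence H (productOf X Z (i :: Li)) →
        ∀ (n : ℤ) (a : T.M ((X i).prod (productOf X Z Li))),
          a ∈ T.gr ((X i).prod (productOf X Z Li)) n →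
          a = ∑ j, T.act (Pool.Agent.W484.CH.extBy A (productOf X Z Li) (D j))
            (T.act (Pool.Agent.W484.CH.pairBy A (productOf X Z Li) (E₁ j)) a) := by
  obtain ⟨S, hsys⟩ := cr_one h
  have hcg := hsys.cg i
  have hres := fun (α : K) (hα : α ∈ S i) (γ : K) hγ (n : ℤ) =>
    nores_tw hsys hi hLi hα (γ := γ) hγ n
  obtain ⟨J, hJ, deg, D, E₁, h1, h2, h3⟩ := hsys.step hi hLi
  obtain ⟨j₀, -⟩ := Pool.Agent.N876.CG.exists_deg_big (h.polarized i) h2 (Nat.zero_le (X i).dim)
  rw [← Pa.tw_eq] at h1 h3 hres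
  refine ⟨J, hJ, ⟨j₀⟩, deg, D, E₁, h1, fun n w hw => ?_, fun T hT hTF hnil n a ha => ?_⟩
  · apply Pool.Agent.N876.CG.act_proj_mixA h1 h2
    refine Pool.Agent.N876.CG.mem_mixA (πZ := F (productOf X Z Li)) (isStandard_bridge h.standard)
      (isFrobenius_bridge (h.frobenius (X i))) hsys.one_lt hcg n
      (fun α hα β hβ => hres α hα β hβ n) 1 w ?_
    unfold Pool.Agent.W484.CH.op
    rw [pow_one, LinearMap.sub_apply, LinearMap.smul_apply, Module.End.one_apply, sub_eq_zero]
    exact hw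
  · have hrel : Pool.Agent.N876.CG.RelTheory (toCorr T) (fun V => (1 : Module.End ℚ ((toCorr T).M V))) F
        (p ^ m) (Polynomial.X - 1 : ℚ[X]) :=
      { corr := toCorr_isCorrTheory hT
        comm := fun Γ t => rfl
        power := fun V n t ht => ⟨1, by
          rw [pow_one, mul_one, LinearMap.sub_apply, LinearMap.smul_apply, Module.End.one_apply,
            sub_eq_zero]
          exact hTF V n t ht⟩
        poly := fun V n t ht => by
          rw [map_sub, map_one, aeval_X, sub_self, LinearMap.zero_apply] }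
    have h4 := h3 (toCorr T) (fun V => 1) (Polynomial.X - 1) (by simp) (fun ρ hρ => by
      rw [map_sub, map_one, aeval_X, sub_eq_zero] at hρ
      exact hρ) hrel (Pool.Agent.N876.CG.nilT_of (toCorr_isCorrTheory hT)
        (nilpotence_bridge hnil))
    obtain ⟨z, ⟨hz, haz⟩, -⟩ := h4 n a ha
    have h5 : ∀ j, z j = T.act (Pool.Agent.W484.CH.pairBy A (productOf X Z Li) (E₁ j)) a := by
      intro j
      rw [haz]
      exact (pair_sum hT h1 j z).symm
    conv_lhs => rw [haz]
    exact Finset.sum_congr rfl fun j _ => by rw [h5 j]; rfl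


/-- the property of the Chow groups used for `K_0` -/
theorem chow_expand (h : IsSeparatedFamily p m ι E M L H F X Z)
    (hnil : ∀ Li, Nilpotence H (productOf X Z Li)) {i : I} {Li : List I} (hi : i ∉ Li)
    (hLi : Li.Nodup) :
    ∃ (J : Type) (_ : Fintype J) (_ : Nonempty J) (deg : J → ℕ) (D E₁ : J → A.A (X i)),
      Pool.Agent.W484.CH.IsDual (X i) (productOf X Z Li) deg D E₁ ∧
      ∀ (n : ℤ) (a : A.A ((X i).prod (productOf X Z Li))),
          a ∈ A.gr ((X i).prod (productOf X Z Li)) n →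
          a = ∑ j, (chowMot A).act (Pool.Agent.W484.CH.extBy A (productOf X Z Li) (D j))
            ((chowMot A).act (Pool.Agent.W484.CH.pairBy A (productOf X Z Li) (E₁ j)) a) := by
  obtain ⟨J, hJ, hne, deg, D, E₁, h1, -, h3⟩ := step h hi hLi
  exact ⟨J, hJ, hne, deg, D, E₁, h1, fun n a ha => h3 (chowMot A) chowMot_isMotivic
    (fun V => chowMot_actsAsPower (h.frobenius V)) (hnil (i :: Li)) n a ha⟩

/-- **Beilinson.** -/
theorem beilinson (h : IsSeparatedFamily p m ι E M L H F X Z) (hI : IsoInvariant A)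
    (hnil : ∀ Li, Nilpotence H (productOf X Z Li)) (e : A.A (Z.prod Z)) {Li : List I}
    (hLi : Li.Nodup) : (IsNondegenerate H (relativeOf X e Li) ↔ IsNondegenerate H e) ∧
      ∀ i, i ∉ Li → ∃ (J : Type) (_ : Fintype J) (deg : J → ℕ) (D : J → A.A (X i)),
        (∀ j, A.Deg (deg j) (D j)) ∧ KZeroKunneth H (X i) (relativeOf X e Li) D := by
  constructor
  · induction Li with
    | nil => exact Iff.rfl
    | cons i Li ih =>
      rw [List.nodup_cons] at hLi
      obtain ⟨J, hJ, hne, deg, D, E₁, h1, h2⟩ := chow_expand h hnil hLi.1 hLi.2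
      exact (nondegenerate_iff h1 hI h2 (relativeOf X e Li)).trans (ih hLi.2)
  · intro i hi
    obtain ⟨J, hJ, hne, deg, D, E₁, h1, h2⟩ := chow_expand h hnil hi hLi
    exact ⟨J, hJ, deg, D, h1.left, kzeroKunneth_of h1 hI h2 (relativeOf X e Li)⟩

theorem isIdempotent_relativeOf (hI : IsoInvariant A) {e : A.A (Z.prod Z)}
    (he : IsIdempotent A e) (Li : List I) : IsIdempotent A (relativeOf X e Li) := by
  induction Li with
  | nil => exact he
  | cons i Li ih => exact isIdempotent_relative hI ih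

/-- **Homological and numerical equivalence.** -/
theorem homNum (h : IsSeparatedFamily p m ι E M L H F X Z) (hI : IsoInvariant A)
    {e : A.A (Z.prod Z)} (he : IsIdempotent A e) {Li : List I} (hLi : Li.Nodup) :
    (HomEqNum H (relativeOf X e Li) ↔ HomEqNum H e) ∧
      ∀ i, i ∉ Li → ∃ (J : Type) (_ : Fintype J) (deg : J → ℕ) (D : J → A.A (X i)),
        (∀ j, A.Deg (deg j) (D j)) ∧ HomKunneth H (X i) (relativeOf X e Li) D := by
  have hF : ∀ i Li, IsFrobenius A
      (prodMap (F (X i)) (F (productOf X Z Li))) (p ^ m) := fun i Li => by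
    rw [← h.product]
    exact h.frobenius _
  constructor
  · induction Li with
    | nil => exact Iff.rfl
    | cons i Li ih =>
      rw [List.nodup_cons] at hLi
      obtain ⟨J, hJ, hne, deg, D, E₁, h1, h2, -⟩ := step h hLi.1 hLi.2
      exact (homEqNum_iff h1 (hF i Li) h2 hI (isIdempotent_relativeOf hI he Li)).trans (ih hLi.2)
  · intro i hi
    obtain ⟨J, hJ, hne, deg, D, E₁, h1, h2, -⟩ := step h hi hLi
    exact ⟨J, hJ, deg, D, h1.left, homKunneth_of h1 (hF i Li) h2 hI
      (isIdempotent_relativeOf hI he Li)⟩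

/-- **The Tate conjecture.** -/
theorem tate (h : IsSeparatedFamily p m ι E M L H F X Z) (hI : IsoInvariant A)
    {e : A.A (Z.prod Z)} (he : IsIdempotent A e) {Li : List I} (hLi : Li.Nodup) :
    (NCTateConjecture H (F (productOf X Z Li)) (p ^ m) (relativeOf X e Li) ↔
        NCTateConjecture H (F Z) (p ^ m) e) ∧
      ∀ i, i ∉ Li → ∃ (J : Type) (_ : Fintype J) (deg : J → ℕ) (D : J → A.A (X i)),
        (∀ j, A.Deg (deg j) (D j)) ∧ TateKunneth H (F (X i)) (F (productOf X Z Li))
        (p ^ m) (relativeOf X e Li) D := by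
  have hQ : p ^ m ≠ 0 := (pow_ne_zero m (Fact.out : p.Prime).ne_zero)
  constructor
  · induction Li with
    | nil => exact Iff.rfl
    | cons i Li ih =>
      rw [List.nodup_cons] at hLi
      obtain ⟨J, hJ, hne, deg, D, E₁, h1, h2, -⟩ := step h hLi.1 hLi.2
      have h3 := ncTate_iff (H := H) hI h1 hQ (isFrobenius_bridge (h.frobenius (X i))) h2
        (isIdempotent_relativeOf hI he Li)
      rw [← h.product] at h3
      exact h3.trans (ih hLi.2)
  · intro i hi
    obtain ⟨J, hJ, hne, deg, D, E₁, h1, h2, -⟩ := step h hi hLi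
    exact ⟨J, hJ, deg, D, h1.left, tateKunneth_of hI h1 hQ
      (isFrobenius_bridge (h.frobenius (X i))) h2 (relativeOf X e Li)⟩

/-- **Beilinson.** -/
theorem beilinsonAll (h : IsSeparatedFamily p m ι E M L H F X Z) (hI : IsoInvariant A)
    (hnil : ∀ Li, Nilpotence H (productOf X Z Li)) {Li : List I} (hLi : Li.Nodup) :
    (∀ e : A.A (Z.prod Z), IsIdempotent A e →
      (IsNondegenerate H (relativeOf X e Li) ↔ IsNondegenerate H e)) ∧
      ∀ i, i ∉ Li → ∃ (J : Type) (_ : Fintype J) (deg : J → ℕ) (D : J → A.A (X i)),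
        (∀ j, A.Deg (deg j) (D j)) ∧ ∀ e : A.A (Z.prod Z), IsIdempotent A e →
          KZeroKunneth H (X i) (relativeOf X e Li) D := by
  refine ⟨fun e _ => (beilinson h hI hnil e hLi).1, fun i hi => ?_⟩
  obtain ⟨J, hJ, hne, deg, D, E₁, h1, h2⟩ := chow_expand h hnil hi hLi
  exact ⟨J, hJ, deg, D, h1.left, fun e _ => kzeroKunneth_of h1 hI h2 (relativeOf X e Li)⟩

/-- **Homological and numerical equivalence.** -/
theorem homNumAll (h : IsSeparatedFamily p m ι E M L H F X Z) (hI : IsoInvariant A)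
    {Li : List I} (hLi : Li.Nodup) :
    (∀ e : A.A (Z.prod Z), IsIdempotent A e →
      (HomEqNum H (relativeOf X e Li) ↔ HomEqNum H e)) ∧
      ∀ i, i ∉ Li → ∃ (J : Type) (_ : Fintype J) (deg : J → ℕ) (D : J → A.A (X i)),
        (∀ j, A.Deg (deg j) (D j)) ∧ ∀ e : A.A (Z.prod Z), IsIdempotent A e →
          HomKunneth H (X i) (relativeOf X e Li) D := by
  refine ⟨fun e he => (homNum h hI he hLi).1, fun i hi => ?_⟩
  obtain ⟨J, hJ, hne, deg, D, E₁, h1, h2, -⟩ := step h hi hLi
  refine ⟨J, hJ, deg, D, h1.left, fun e he => homKunneth_of h1 ?_ h2 hI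
      (isIdempotent_relativeOf hI he Li)⟩
  rw [← h.product]
  exact h.frobenius _

/-- **The Tate conjecture.** -/
theorem tateAll (h : IsSeparatedFamily p m ι E M L H F X Z) (hI : IsoInvariant A)
    {Li : List I} (hLi : Li.Nodup) :
    (∀ e : A.A (Z.prod Z), IsIdempotent A e →
      (NCTateConjecture H (F (productOf X Z Li)) (p ^ m) (relativeOf X e Li) ↔
        NCTateConjecture H (F Z) (p ^ m) e)) ∧
      ∀ i, i ∉ Li → ∃ (J : Type) (_ : Fintype J) (deg : J → ℕ) (D : J → A.A (X i)),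
        (∀ j, A.Deg (deg j) (D j)) ∧ ∀ e : A.A (Z.prod Z), IsIdempotent A e →
          TateKunneth H (F (X i)) (F (productOf X Z Li)) (p ^ m)
            (relativeOf X e Li) D := by
  refine ⟨fun e he => (tate h hI he hLi).1, fun i hi => ?_⟩
  obtain ⟨J, hJ, hne, deg, D, E₁, h1, h2, -⟩ := step h hi hLi
  exact ⟨J, hJ, deg, D, h1.left, fun e _ => tateKunneth_of hI h1 (pow_ne_zero m (Fact.out : p.Prime).ne_zero)
      (isFrobenius_bridge (h.frobenius (X i))) h2 (relativeOf X e Li)⟩

end Pool.Agent.U173.SF.Nc
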