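import Pool.Agent.U231.FR.Pa
import Pool.Agent.U173.SF.Sys

/-!
# Pairings on the motivic cohomology of products of varieties with separated slope fields

The proof follows `U231/FR/Pa` (helper231).
-/

set_option autoImplicit false

open Finset Polynomial CategoryTheory AlgebraicGeometry

namespace Pool.Agent.U173.SF.Pa

open Pool.Agent.H914 Pool.Agent.H914.VarClass Pool.Agent.H914.VarClass.Obj Pool.Agent.W492.BB
  Pool.Agent.W484.CK Pool.Agent.U231.FR.Base Pool.Agent.U173.SL Pool.Agent.TH121.KT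
  Pool.Agent.U173.PS Pool.Agent.U173.SF Pool.Agent.U231.FR Pool.Agent.U231.FR.Pa

theorem main {κ : Type} [Field κ] {𝒱 : VarClass κ} {A : TheoryData.{0, 0, 0} 𝒱 ℚ} [IsChow A]
    {K : Type} [Field K] [IsAlgClosed K] [CharZero K] {H : WeilTheoryData.{0, 0, 0} A K} [IsWeil H]
    {I : Type} [LinearOrder I] {p m : ℕ} [Fact p.Prime] {ι : Qb →+* PadicAlgCl p}
    {M : IntermediateField ℚ Qb} {E L : I → IntermediateField ℚ Qb} {F : ∀ X : 𝒱.Obj, X ⟶ X}
    {X : I → 𝒱.Obj} {Z : 𝒱.Obj}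
    (h : IsSeparatedFamily p m ι E M L H F X Z) {χ : ℚ[X]} (hχ0 : χ.coeff 0 ≠ 0)
    (hχ : ∀ ρ : K, aeval ρ χ = 0 → HasSlopesIn p ι M ρ)
    (hnil : ∀ Li : List I, Nilpotence H (productOf X Z Li))
    (T R : MotivicData A) (φT : ∀ X, T.M X →ₗ[ℚ] T.M X) (φR : ∀ X, R.M X →ₗ[ℚ] R.M X)
    (hT : IsCycleTheory T φT F (p ^ m)) (hT0 : IsRoot T φT χ)
    (hR : IsCycleTheory R φR F (p ^ m)) (hR0 : IsRoot R φR χ)
    (cup : ∀ X : 𝒱.Obj, T.M X →ₗ[ℚ] R.M X →ₗ[ℚ] ℚ) (hadj : IsAdjoint T R cup) (e : ℤ)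
    (Li : List I) (hLi : Li.Nodup) (n : ℤ) :
    IsPerfectIn T R cup e (productOf X Z Li) n ↔
      ∀ l : ℤ, n - dimension X Li ≤ l → l ≤ n → IsPerfectIn T R cup e Z l := by
  obtain ⟨S, hsys⟩ := cr_of h (B := {ρ | aeval ρ χ = 0}) hχ
  have hpol := h.polarized
  have hrel : ∀ (T : MotivicData A) (φ : ∀ X, T.M X →ₗ[ℚ] T.M X),
      IsCycleTheory T φ F (p ^ m) → IsRoot T φ χ →
      Pool.Agent.N876.CG.RelTheory (toCorr T) φ F (p ^ m) χ := fun T φ hT hT0 =>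
    { corr := toCorr_isCorrTheory hT.motivic
      comm := hT.comm
      power := fun X n t ht => ⟨1, by
        rw [pow_one]
        exact hT.power ht⟩
      poly := fun X n t ht => hT0 ht }
  have hnil' : ∀ (T : MotivicData A), IsMotivic T → ∀ Li,
      Pool.Agent.N876.CG.NilT H (toCorr T) (Pool.Agent.N876.CG.tw X Z Li) := fun T hT Li =>
    Pool.Agent.N876.CG.nilT_of (toCorr_isCorrTheory hT) (by
      rw [← tw_eq]
      exact nilpotence_bridge (hnil Li))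
  simp only [perf_iff]
  rw [tw_eq, dims_eq]
  refine Pool.Agent.N876.CG.dims_induct (fun V n => Pool.Agent.N876.CG.Perf (toCorr T) (toCorr R)
    cup e V n) ?_ hLi n
  intro i Li hi hLi
  obtain ⟨J, hJ, deg, D, E₁, h1, h2, h3, h4⟩ := hsys.step2 hi hLi
  obtain ⟨h5, -⟩ := h4 (toCorr T) φT χ hχ0 (fun ρ hρ => hρ) (hrel T φT hT hT0)
    (hnil' T hT.motivic (i :: Li))
  obtain ⟨-, h6⟩ := h4 (toCorr R) φR χ hχ0 (fun ρ hρ => hρ) (hrel R φR hR hR0)
    (hnil' R hR.motivic (i :: Li))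
  refine ⟨J, fun j => (X i).dim - deg j, fun j => Nat.sub_le _ _, fun l hl => ?_, fun n => ?_⟩
  · obtain ⟨j, hj⟩ := Pool.Agent.N876.CG.exists_deg_big (hpol i) h2
      (show (X i).dim - l ≤ (X i).dim from Nat.sub_le _ _)
    refine ⟨j, ?_⟩
    change (X i).dim - deg j = l
    rw [hj]
    omega
  · exact Pool.Agent.N876.CG.perf_deg (toCorr_isCorrTheory hT.motivic)
      (toCorr_isCorrTheory hR.motivic) hadj h1 h5 h6 e n

end Pool.Agent.U173.SF.Pa
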